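import Pool.Agent.Helper608.KRefl

open Pool.Agent.Helper608.SphMCF

namespace Pool.Agent.Results.MP_be3d74_gt.ImmersedSphere

/-- `sgn 0 = 0` and `sgn m = 1` for `m > 0`. -/
def sgn (m : ℕ) : ℕ := if m = 0 then 0 else 1

/-- The constant `k(q, n) = min {q · sgn (q - 1), n}`. -/
def kk (q n : ℕ) : ℕ := min (q * sgn (q - 1)) n

/-- There is a smooth immersion `F₀` of the sphere `S²` into the unit sphere `S³` which satisfies
the hypotheses `n² c + |H|² > 0` and `K > k(q,n) (c + |H|²/n²) / (2 (k(q,n) + 1))` for `n = 2`,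
`q = 1`, `c = 1` (so it has positive Gauss curvature), such that every smooth mean curvature flow
on `[0, T)` with initial value `F₀` has `T ≤ 1/100` and does not shrink to a point. So the flow
starting at `F₀` neither converges to a round point nor exists for all times. -/
theorem result : ∃ F₀ : S → V,
    IsSmooth F₀ ∧ (∀ x, ‖F₀ x‖ = 1) ∧ IsImmersion F₀ ∧ (∀ x, ∃ e, IsFrame F₀ x e) ∧
    (∀ x e, IsFrame F₀ x e → 0 < 2 ^ 2 * 1 + ‖meanCurv F₀ x e‖ ^ 2 ∧
      (kk 1 2 : ℝ) * (1 + 1 / 2 ^ 2 * ‖meanCurv F₀ x e‖ ^ 2) / (2 * ((kk 1 2 : ℝ) + 1)) <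
        gaussCurv F₀ x e) ∧
    ∀ (T : EReal) (F : ℝ → S → V), IsMCF F₀ T F →
      T ≤ ((1 / 100 : ℝ) : EReal) ∧ ¬ ShrinksToPoint T F := by
  refine ⟨F0, F0_smooth, F0_norm, F0_imm, exists_frame F0_imm, ?_, main_all⟩
  intro x e he
  refine ⟨by positivity, ?_⟩
  have h : kk 1 2 = 0 := by decide
  rw [h]
  simpa using F0_gauss he

end Pool.Agent.Results.MP_be3d74_gt.ImmersedSphere
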